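import Pool.Agent.NRM.Frac
import Pool.Agent.XB.StmtsB
import Pool.Agent.TFR.DEH

/-!
# The normalisation of the homogeneous coordinate ring of a close model
-/

set_option autoImplicit false
set_option linter.style.haveILetI false

noncomputable section

namespace Pool.Agent.NRM

open scoped Classical
open MvPolynomial Pool.Agent.LibDb3ab1 Pool.Agent.DC Pool.Agent.FRM Pool.Agent.XV Pool.Agent.XB

/-- Some coordinate does not vanish. -/
theorem exists_coord {N : ℕ} {K : Type} [Field K] {P : Ideal (MvPolynomial (Fin (N + 1)) K)}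
    {d : ℕ} (hdim : ringKrullDim (MvPolynomial (Fin (N + 1)) K ⧸ P) = (d + 1 : ℕ)) :
    ∃ i, X i ∉ P := by
  by_contra h
  push Not at h
  have h1 : Function.Surjective ((Ideal.Quotient.mk P).comp (C (R := K) (σ := Fin (N + 1)))) := by
    intro y
    obtain ⟨f, rfl⟩ := Ideal.Quotient.mk_surjective y
    induction f using MvPolynomial.induction_on with
    | C c => exact ⟨c, rfl⟩
    | add p q hp hq =>
      obtain ⟨a, ha⟩ := hp
      obtain ⟨b, hb⟩ := hq
      exact ⟨a + b, by rw [map_add, map_add, ha, hb]⟩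
    | mul_X p i _ =>
      refine ⟨0, ?_⟩
      rw [map_zero, map_mul, Ideal.Quotient.eq_zero_iff_mem.2 (h i), mul_zero]
  have h2 := ringKrullDim_le_of_surjective _ h1
  rw [hdim, ringKrullDim_eq_zero_of_field] at h2
  have h3 : d + 1 ≤ 0 := by exact_mod_cast h2
  omega

section main

variable {N d : ℕ} {K : Type} [Field K] (V : ValuationSubring K) {F₀ : Type} [Field F₀]
  [Algebra K F₀] (ξ : Fin (N + 1) → F₀) {P : Ideal (MvPolynomial (Fin (N + 1)) K)}

/-- The embedding of the quotient. -/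
def ka (hk : RingHom.ker (ph (K := K) ξ) = P) :
    MvPolynomial (Fin (N + 1)) K ⧸ P →+* FractionRing (Polynomial F₀) :=
  Ideal.Quotient.lift P ((io (K := K)).comp (ph ξ)).toRingHom (by
    intro a ha
    rw [← hk, RingHom.mem_ker] at ha
    change io (K := K) (ph ξ a) = 0
    rw [ha, map_zero])

theorem ka_mk (hk : RingHom.ker (ph (K := K) ξ) = P) (f : MvPolynomial (Fin (N + 1)) K) :
    ka ξ hk (Ideal.Quotient.mk P f) = io (K := K) (ph ξ f) := rfl

theorem ka_inj (hk : RingHom.ker (ph (K := K) ξ) = P) : Function.Injective (ka ξ hk) := by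
  rw [injective_iff_map_eq_zero]
  intro x hx
  obtain ⟨f, rfl⟩ := Ideal.Quotient.mk_surjective x
  rw [ka_mk] at hx
  have h1 : ph (K := K) ξ f = 0 := io_inj (hx.trans (map_zero _).symm)
  rw [Ideal.Quotient.eq_zero_iff_mem, ← hk, RingHom.mem_ker]
  exact h1

theorem finS (hV : IsDiscreteValuationRing V) (hP : P.IsPrime)
    (hdim : ringKrullDim (MvPolynomial (Fin (N + 1)) K ⧸ P) = (d + 1 : ℕ))
    (z : Fin (d + 1) → MvPolynomial (Fin (N + 1)) V)
    (hz : ∀ i, (zmap V P z).IsIntegralElem (Ideal.Quotient.mk P (X i)))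
    (hsep : Sepz P fun i => MvPolynomial.map V.subtype (z i))
    (hk : RingHom.ker (ph (K := K) ξ) = P) {i₀ : Fin (N + 1)} (h1 : ξ i₀ = 1)
    (gen : IntermediateField.adjoin K (Set.range ξ) = ⊤) (S : Set (NB (K := K) ξ))
    (h0 : 0 ∈ S) (hadd : ∀ a ∈ S, ∀ b ∈ S, a + b ∈ S)
    (hmul : ∀ G : MvPolynomial (Fin (N + 1)) V, ∀ b ∈ S, φ ξ (MvPolynomial.map V.subtype G) * b ∈ S)
    (hS : ∀ b ∈ S, ((φ (K := K) ξ : MvPolynomial (Fin (N + 1)) K →+* NB (K := K) ξ).comp
      (MvPolynomial.map V.subtype)).IsIntegralElem b) :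
    ∃ (m : ℕ) (b : Fin m → NB (K := K) ξ), (∀ i, b i ∈ S) ∧
      ∀ y ∈ S, ∃ q : Fin m → MvPolynomial (Fin (d + 1)) V,
        y = ∑ i, φ ξ (MvPolynomial.map V.subtype (aeval z (q i))) * b i := by
  have := hP
  have : IsDomain (MvPolynomial (Fin (N + 1)) K ⧸ P) := Ideal.Quotient.isDomain P
  let L := FractionRing (Polynomial F₀)
  letI : Algebra (MvPolynomial (Fin (N + 1)) K ⧸ P) L := (ka ξ hk).toAlgebra
  have hFS : FaithfulSMul (MvPolynomial (Fin (N + 1)) K ⧸ P) L :=
    (faithfulSMul_iff_algebraMap_injective _ _).2 (ka_inj ξ hk)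
  have hFR : IsFractionRing (MvPolynomial (Fin (N + 1)) K ⧸ P) L := by
    apply IsFractionRing.of_field
    intro x
    obtain ⟨a, b, hb, h⟩ := frac (K := K) ξ h1 gen x
    refine ⟨Ideal.Quotient.mk P a, Ideal.Quotient.mk P b, ?_⟩
    have h2 : algebraMap (MvPolynomial (Fin (N + 1)) K ⧸ P) L (Ideal.Quotient.mk P b) ≠ 0 := by
      intro h3
      exact hb (io_inj (h3.trans (map_zero (io (K := K))).symm))
    rw [eq_div_iff h2]
    exact h
  letI : Algebra (MvPolynomial (Fin (d + 1)) V) (MvPolynomial (Fin (N + 1)) K ⧸ P) :=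
    (zmap V P z).toAlgebra
  letI : Algebra (MvPolynomial (Fin (d + 1)) V) L := ((ka ξ hk).comp (zmap V P z)).toAlgebra
  have hST : IsScalarTower (MvPolynomial (Fin (d + 1)) V) (MvPolynomial (Fin (N + 1)) K ⧸ P) L :=
    IsScalarTower.of_algebraMap_eq' rfl
  have hN := mfL K V hV N d P hP hdim z hz hsep (FractionRing (MvPolynomial (Fin (d + 1)) V)) L rfl
  -- the elements of `S` in the integral closure
  let A' := integralClosure (MvPolynomial (Fin (d + 1)) V) L
  have h2 : ∀ G : MvPolynomial (Fin (N + 1)) V, ka ξ hk (vmap V P G) ∈ A' := by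
    intro G
    induction G using MvPolynomial.induction_on with
    | C c =>
      have : ka ξ hk (vmap V P (C c)) = algebraMap (MvPolynomial (Fin (d + 1)) V) L (C c) := by
        change _ = ka ξ hk (zmap V P z (C c))
        congr 1
        simp [vmap, zmap]
      rw [this]
      exact Subalgebra.algebraMap_mem _ _
    | add p q hp hq =>
      rw [map_add, map_add]
      exact Subalgebra.add_mem _ hp hq
    | mul_X p i hp =>
      rw [map_mul, map_mul]
      refine Subalgebra.mul_mem _ hp ?_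
      have h3 : vmap V P (X i) = Ideal.Quotient.mk P (X i) := by simp [vmap]
      rw [h3]
      obtain ⟨f, hf, hf0⟩ := hz i
      refine ⟨f, hf, ?_⟩
      have h5 := congrArg (ka ξ hk) hf0
      rw [Polynomial.hom_eval₂, map_zero] at h5
      exact h5
  let v' : MvPolynomial (Fin (N + 1)) V →+* A' := ((ka ξ hk).comp (vmap V P)).codRestrict _ h2
  let ιB : NB (K := K) ξ →+* L := (io (K := K) (F₀ := F₀)).toRingHom.comp
    (NB (K := K) ξ).val.toRingHom
  have hιB : Function.Injective ιB := (io_inj (K := K)).comp Subtype.val_injective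
  have hιφ : ∀ f, ιB (φ ξ f) = io (K := K) (ph ξ f) := fun f => rfl
  have h3 : ∀ b ∈ S, ιB b ∈ A' := by
    intro b hb
    obtain ⟨f, hf, hf0⟩ := hS b hb
    have h4 : IsIntegral A' (ιB b) := by
      refine ⟨f.map v', hf.map _, ?_⟩
      rw [Polynomial.eval₂_map]
      have h5 := congrArg ιB hf0
      rw [Polynomial.hom_eval₂, map_zero] at h5
      exact h5
    exact isIntegral_trans _ h4
  -- the submodule
  let M : Submodule (MvPolynomial (Fin (d + 1)) V) A' :=
    { carrier := {y | ∃ b ∈ S, ιB b = y}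
      zero_mem' := ⟨0, h0, map_zero _⟩
      add_mem' := by
        rintro y y' ⟨b, hb, h⟩ ⟨b', hb', h'⟩
        exact ⟨b + b', hadd b hb b' hb', by rw [map_add, h, h']; rfl⟩
      smul_mem' := by
        rintro q y ⟨b, hb, h⟩
        refine ⟨φ ξ (MvPolynomial.map V.subtype (aeval z q)) * b, hmul _ b hb, ?_⟩
        rw [map_mul, h, Subalgebra.coe_smul, Algebra.smul_def]
        rfl }
  have h4 : M.FG := hN.noetherian M
  obtain ⟨T, hT⟩ := h4
  have h5 : ∀ y ∈ T, ∃ b ∈ S, ιB b = (y : A') := by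
    intro y hy
    have : y ∈ M := by
      rw [← hT]
      exact Submodule.subset_span hy
    exact this
  let e := T.equivFin
  have h6 : ∀ i : Fin T.card, ∃ b ∈ S, ιB b = ((e.symm i : A') : L) := fun i =>
    h5 _ (e.symm i).2
  choose b hb hb' using h6
  refine ⟨T.card, b, hb, ?_⟩
  intro y hy
  have h7 : (⟨ιB y, h3 y hy⟩ : A') ∈ M := ⟨y, hy, rfl⟩
  rw [← hT] at h7
  obtain ⟨q, hq⟩ := Submodule.mem_span_finset.1 h7 
  refine ⟨fun i => q (e.symm i), ?_⟩
  apply hιB
  rw [map_sum]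
  have h8 := congrArg Subtype.val hq.2
  change _ = ιB y at h8
  rw [← h8, AddSubmonoidClass.coe_finsetSum]
  rw [← Finset.sum_coe_sort T, ← e.symm.sum_comp]
  refine Finset.sum_congr rfl fun i _ => ?_
  rw [Subalgebra.coe_smul, Algebra.smul_def, map_mul, hb']
  rfl

/-- The normalisation is integrally closed, and it has the field of fractions of the ring. -/
theorem closed {i₀ : Fin (N + 1)} (h1 : ξ i₀ = 1)
    (gen : IntermediateField.adjoin K (Set.range ξ) = ⊤) :
    IsIntegrallyClosed (NB (K := K) ξ) ∧ ∀ b : NB (K := K) ξ,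
      ∃ g f : MvPolynomial (Fin (N + 1)) K, ph ξ g ≠ 0 ∧ φ ξ g * b = φ ξ f := by
  let L := FractionRing (Polynomial F₀)
  let ιB : NB (K := K) ξ →+* L := (io (K := K) (F₀ := F₀)).toRingHom.comp
    (NB (K := K) ξ).val.toRingHom
  have hιB : Function.Injective ιB := (io_inj (K := K)).comp Subtype.val_injective
  have hιφ : ∀ f, ιB (φ ξ f) = io (K := K) (ph ξ f) := fun f => rfl
  constructor
  · have hal : ∀ b, algebraMap (NB (K := K) ξ) L b = ιB b := fun _ => rfl
    have hFS : FaithfulSMul (NB (K := K) ξ) L :=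
      (faithfulSMul_iff_algebraMap_injective _ _).2 hιB
    have hFR : IsFractionRing (NB (K := K) ξ) L := by
      apply IsFractionRing.of_field
      intro x
      obtain ⟨a, b, hb, h⟩ := frac (K := K) ξ h1 gen x
      refine ⟨φ ξ a, φ ξ b, ?_⟩
      have h2 : algebraMap (NB (K := K) ξ) L (φ ξ b) ≠ 0 := by
        intro h3
        exact hb (io_inj (h3.trans (map_zero (io (K := K))).symm))
      rw [eq_div_iff h2]
      exact h
    rw [isIntegrallyClosed_iff L]
    intro x hx
    obtain ⟨f, hf, hf0⟩ := hx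
    have h3 : IsIntegral (Polynomial F₀) x := by
      refine ⟨f.map (NB (K := K) ξ).val.toRingHom, hf.map _, ?_⟩
      rw [Polynomial.eval₂_map]
      exact hf0
    obtain ⟨q, hq⟩ := IsIntegrallyClosed.isIntegral_iff.1 h3
    have h4 : IsIntegral (NB (K := K) ξ) q := by
      refine ⟨f, hf, ?_⟩
      apply io_inj (K := K)
      have h5 := Polynomial.hom_eval₂ f (algebraMap (NB (K := K) ξ) (Polynomial F₀))
        (io (K := K) (F₀ := F₀)).toRingHom q
      refine h5.trans ?_
      rw [map_zero]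
      have h6 : (io (K := K) (F₀ := F₀)).toRingHom q = x := hq
      rw [h6]
      exact hf0
    exact ⟨⟨q, mem_of_int ξ q h4⟩, hq⟩
  · intro b
    obtain ⟨a, c, hc, h⟩ := frac (K := K) ξ h1 gen (ιB b)
    refine ⟨c, a, hc, ?_⟩
    apply hιB
    rw [map_mul, mul_comm]
    exact h

end main

/-- NRM: the normalisation of the homogeneous coordinate ring of a close model. -/
theorem nrm_proof {p : ℕ} {J : Type} (E : Eqs p N J) {K : Type} [Field K] (V : ValuationSubring K)
    {F : Type} [Field F] (c : F →+* V) (σ : V →+* F) (t ϖ : V)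
    (P : Ideal (MvPolynomial (Fin (N + 1)) K)) (z : Fin 4 → MvPolynomial (Fin (N + 1)) V)
    (h : Su E V c σ t ϖ P z) :
    ∃ (B : Type) (_ : CommRing B) (_ : Algebra K B)
      (φ : MvPolynomial (Fin (N + 1)) K →ₐ[K] B) (ℬ : ℕ → Submodule K B) (_ : GradedAlgebra ℬ),
      SuB E V c σ t ϖ P z φ ℬ ∧ IsIntegrallyClosed B ∧
        ∀ b : B, ∃ g f : MvPolynomial (Fin (N + 1)) K, g ∉ P ∧ φ g * b = φ f := by
  obtain ⟨i₀, hi₀⟩ := exists_coord h.close.dim
  obtain ⟨F₀, _, _, ξ, hD⟩ := Pool.Agent.TFR.deh_proof N K P h.close.prime h.close.hom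
    (fun _ => X i₀) (fun _ => isHomogeneous_X K i₀) hi₀
  have h1 : ξ i₀ = 1 := by
    have := hD.z0
    rwa [aeval_X] at this
  have hk : RingHom.ker (ph (K := K) ξ) = P := ker_ph ξ h.close.hom hD.mem
  have hg : ∀ g : MvPolynomial (Fin (N + 1)) K, ph ξ g ≠ 0 ↔ g ∉ P := by
    intro g
    rw [← hk, RingHom.mem_ker]
  have hcl := closed ξ h1 hD.gen
  refine ⟨NB (K := K) ξ, inferInstance, inferInstance, φ ξ, grd ξ, inferInstance,
    ⟨h, inferInstance, ?_, φ_mem ξ, NB_int ξ, ?_⟩, hcl.1, ?_⟩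
  · ext f
    rw [RingHom.mem_ker, ← hk, RingHom.mem_ker, ← coe_φ ξ]
    exact ⟨fun h => by rw [h]; rfl, fun h => Subtype.ext h⟩
  · obtain ⟨m, b, hb, hgen⟩ := finS (d := 3) V ξ h.dvr h.close.prime h.close.dim z h.close.z_int
      h.close.z_sep hk h1 hD.gen {b | b ∈ Sb V (φ (K := K) ξ)}
      ((Sb V (φ (K := K) ξ)).zero_mem)
      (fun a ha b hb => (Sb V (φ (K := K) ξ)).add_mem ha hb)
      (fun G b hb => (Sb V (φ (K := K) ξ)).mul_mem
        (show φ (K := K) ξ (MvPolynomial.map V.subtype G) ∈ Sb V (φ (K := K) ξ) from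
          RingHom.isIntegralElem_map (vB V (φ (K := K) ξ)) (x := G)) hb)
      (fun b hb => hb)
    exact ⟨m, b, hb, hgen⟩
  · intro b
    obtain ⟨g, f, h2, h3⟩ := hcl.2 b
    exact ⟨g, f, (hg g).1 h2, h3⟩

end Pool.Agent.NRM
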