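import Pool.Agent.XB.StmtsB

/-!
# The graded domain is a finite module over the polynomial ring
-/

set_option autoImplicit false
set_option linter.style.haveILetI false

noncomputable section

namespace Pool.Agent.NRM

open scoped Classical
open MvPolynomial Pool.Agent.LibDb3ab1 Pool.Agent.DC Pool.Agent.FRM Pool.Agent.XV Pool.Agent.XB

section

variable {K : Type} [Field K] (V : ValuationSubring K) {B : Type} [CommRing B] [Algebra K B]
  (φ : MvPolynomial (Fin (N + 1)) K →ₐ[K] B)

/-- A multiple of an element which is integral over `K[x]` is in the integral model. -/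
theorem exists_mul_mem {b : B}
    (hb : (φ : MvPolynomial (Fin (N + 1)) K →+* B).IsIntegralElem b) :
    ∃ v : V, v ≠ 0 ∧ algebraMap V B v * b ∈ Sb V φ := by
  letI : Algebra (MvPolynomial (Fin (N + 1)) K) B :=
    (φ : MvPolynomial (Fin (N + 1)) K →+* B).toAlgebra
  letI : Algebra (MvPolynomial (Fin (N + 1)) V) (MvPolynomial (Fin (N + 1)) K) :=
    MvPolynomial.algebraMvPolynomial
  letI : Algebra (MvPolynomial (Fin (N + 1)) V) B := (vB V φ).toAlgebra
  have hST : IsScalarTower (MvPolynomial (Fin (N + 1)) V) (MvPolynomial (Fin (N + 1)) K) B :=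
    IsScalarTower.of_algebraMap_eq' rfl
  have hL : IsLocalization ((nonZeroDivisors V).map (C (σ := Fin (N + 1)) (R := V)))
      (MvPolynomial (Fin (N + 1)) K) := MvPolynomial.isLocalization _ _
  have h1 : IsIntegral (MvPolynomial (Fin (N + 1)) K) b := hb
  obtain ⟨⟨m, v, hv, hm⟩, h2⟩ := h1.exists_multiple_integral_of_isLocalization
    ((nonZeroDivisors V).map (C (σ := Fin (N + 1)) (R := V))) b
  refine ⟨v, nonZeroDivisors.ne_zero hv, ?_⟩
  have h3 : algebraMap V B v = algebraMap (MvPolynomial (Fin (N + 1)) V) B m := by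
    rw [← hm]
    change _ = vB V φ (C v)
    simp only [vB, RingHom.comp_apply, map_C]
    exact (φ.commutes _).symm
  rw [h3]
  have h4 : (⟨m, v, hv, hm⟩ : ((nonZeroDivisors V).map (C (σ := Fin (N + 1)) (R := V)))) • b =
      algebraMap (MvPolynomial (Fin (N + 1)) V) B m * b := by
    rw [Submonoid.smul_def, Algebra.smul_def]
  rw [← h4]
  exact h2

end

variable {p : ℕ} {J : Type} {E : Eqs p N J} {K : Type} [Field K] {V : ValuationSubring K}
    {F : Type} [Field F] {c : F →+* V} {σ : V →+* F} {t ϖ : V}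
    {P : Ideal (MvPolynomial (Fin (N + 1)) K)} {z : Fin 4 → MvPolynomial (Fin (N + 1)) V}
    {B : Type} [CommRing B] [Algebra K B] {φ : MvPolynomial (Fin (N + 1)) K →ₐ[K] B}
    {ℬ : ℕ → Submodule K B}

/-- The graded domain is a finite module over the polynomial ring in `z`. -/
theorem fin_z (h : SuB E V c σ t ϖ P z φ ℬ) :
    ∃ (m : ℕ) (b : Fin m → B), ∀ y : B, ∃ q : Fin m → MvPolynomial (Fin 4) K,
      y = ∑ i, φ (aeval (fun j => MvPolynomial.map V.subtype (z j)) (q i)) * b i := by
  obtain ⟨m, b, -, hgen⟩ := h.finS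
  refine ⟨m, b, fun y => ?_⟩
  obtain ⟨v, hv, hy⟩ := exists_mul_mem V φ (h.intB y)
  obtain ⟨q, hq⟩ := hgen _ hy
  have hv' : (v : K) ≠ 0 := fun h => hv (Subtype.ext h)
  refine ⟨fun i => C ((v : K)⁻¹) * MvPolynomial.map V.subtype (q i), ?_⟩
  have h1 : y = algebraMap K B ((v : K)⁻¹) * (algebraMap V B v * y) := by
    rw [← mul_assoc]
    have h2 : algebraMap K B ((v : K)⁻¹) * algebraMap V B v = 1 := by
      have h3 : algebraMap V B v = algebraMap K B (v : K) := rfl
      rw [h3, ← map_mul, inv_mul_cancel₀ hv', map_one]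
    rw [h2, one_mul]
  rw [h1, hq, Finset.mul_sum]
  refine Finset.sum_congr rfl fun i _ => ?_
  have h4 : ∀ r : MvPolynomial (Fin 4) V, aeval (fun j => MvPolynomial.map V.subtype (z j))
      (MvPolynomial.map V.subtype r) = MvPolynomial.map V.subtype (aeval z r) := by
    intro r
    induction r using MvPolynomial.induction_on with
    | C c =>
      rw [map_C, aeval_C, aeval_C, MvPolynomial.algebraMap_eq, MvPolynomial.algebraMap_eq, map_C]
    | add p q hp hq => simp only [map_add, hp, hq]
    | mul_X p i hp => simp only [map_mul, map_X, aeval_X, hp]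
  have h5 : (aeval (fun j => MvPolynomial.map V.subtype (z j)) (C ((v : K)⁻¹)) :
      MvPolynomial (Fin (N + 1)) K) = C ((v : K)⁻¹) := by
    rw [aeval_C, MvPolynomial.algebraMap_eq]
  have h6 : φ (C ((v : K)⁻¹)) = algebraMap K B ((v : K)⁻¹) := φ.commutes _
  rw [map_mul, h4, h5, map_mul, h6, ← mul_assoc]
  rfl

/-- The graded domain is Noetherian. -/
theorem noeth (h : SuB E V c σ t ϖ P z φ ℬ) : IsNoetherianRing B := by
  obtain ⟨m, b, hb⟩ := fin_z h
  let f : MvPolynomial (Fin 4) K →+* B := (φ : MvPolynomial (Fin (N + 1)) K →+* B).comp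
    (aeval (fun j => MvPolynomial.map V.subtype (z j)) :
      MvPolynomial (Fin 4) K →ₐ[K] MvPolynomial (Fin (N + 1)) K).toRingHom
  letI : Algebra (MvPolynomial (Fin 4) K) B := f.toAlgebra
  have h1 : Module.Finite (MvPolynomial (Fin 4) K) B := by
    refine Module.finite_def.2 ⟨Finset.univ.image b, ?_⟩
    rw [eq_top_iff]
    intro y _
    obtain ⟨q, hq⟩ := hb y
    rw [hq]
    refine Submodule.sum_mem _ fun i _ => ?_
    have h2 : φ (aeval (fun j => MvPolynomial.map V.subtype (z j)) (q i)) * b i = q i • b i := by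
      rw [Algebra.smul_def]
      rfl
    rw [h2]
    exact Submodule.smul_mem _ _ (Submodule.subset_span (by simp))
  exact isNoetherian_of_tower (MvPolynomial (Fin 4) K) (isNoetherian_of_isNoetherianRing_of_finite _ _)

end Pool.Agent.NRM
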