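import Pool.Agent.FRM.FINA

/-!
# Finiteness of the integral closure in a fraction field of the homogeneous coordinate ring
-/

set_option autoImplicit false

noncomputable section

namespace Pool.Agent.NRM

open scoped Classical
open MvPolynomial Pool.Agent.LibDb3ab1 Pool.Agent.DC Pool.Agent.FRM

/-- Variant of `FINA_.mf`: the integral closure of `V[z]` in the field of fractions. -/
theorem mfL (k : Type) [Field k] (V : ValuationSubring k) (hV : IsDiscreteValuationRing V)
    (N d : ℕ) (P : Ideal (MvPolynomial (Fin (N + 1)) k)) (_hP : P.IsPrime)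
    (hdim : ringKrullDim (MvPolynomial (Fin (N + 1)) k ⧸ P) = (d + 1 : ℕ))
    (z : Fin (d + 1) → MvPolynomial (Fin (N + 1)) V)
    (hz : ∀ i, (zmap V P z).IsIntegralElem (Ideal.Quotient.mk P (X i)))
    (hsep : Sepz P fun i => MvPolynomial.map V.subtype (z i))
    (K L : Type) [Field K] [Field L] [Algebra (MvPolynomial (Fin (d + 1)) V) K]
    [IsFractionRing (MvPolynomial (Fin (d + 1)) V) K]
    [Algebra (MvPolynomial (Fin (N + 1)) k ⧸ P) L]
    [IsFractionRing (MvPolynomial (Fin (N + 1)) k ⧸ P) L]
    [IsDomain (MvPolynomial (Fin (N + 1)) k ⧸ P)]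
    [Algebra (MvPolynomial (Fin (d + 1)) V) (MvPolynomial (Fin (N + 1)) k ⧸ P)]
    (hal : algebraMap (MvPolynomial (Fin (d + 1)) V) (MvPolynomial (Fin (N + 1)) k ⧸ P) =
      zmap V P z) [Algebra (MvPolynomial (Fin (d + 1)) V) L]
    [IsScalarTower (MvPolynomial (Fin (d + 1)) V) (MvPolynomial (Fin (N + 1)) k ⧸ P) L] :
    IsNoetherian (MvPolynomial (Fin (d + 1)) V)
      (integralClosure (MvPolynomial (Fin (d + 1)) V) L) := by
  have hkinj := FINA_.inj d _ (FINA_.kmap_int V P z hz) hdim
  have hzinj : Function.Injective (zmap V P z) := by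
    rw [FINA_.zmap_eq]
    exact hkinj.comp (MvPolynomial.map_injective _ Subtype.val_injective)
  have : IsNoetherianRing (MvPolynomial (Fin (d + 1)) V) := inferInstance
  have : IsIntegrallyClosed (MvPolynomial (Fin (d + 1)) V) := inferInstance
  have hAL : Function.Injective (algebraMap (MvPolynomial (Fin (d + 1)) V) L) := by
    rw [IsScalarTower.algebraMap_eq (MvPolynomial (Fin (d + 1)) V)
      (MvPolynomial (Fin (N + 1)) k ⧸ P) L, hal]
    exact (IsFractionRing.injective (MvPolynomial (Fin (N + 1)) k ⧸ P) L).comp hzinj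
  let : Algebra K L := (IsFractionRing.lift hAL : K →+* L).toAlgebra
  have : IsScalarTower (MvPolynomial (Fin (d + 1)) V) K L := by
    apply IsScalarTower.of_algebraMap_eq
    intro a
    exact (IsFractionRing.lift_algebraMap hAL a).symm
  -- the embedding of `k`
  let jk : k →+* K := IsFractionRing.lift (A := V) (K := k)
    (g := (algebraMap (MvPolynomial (Fin (d + 1)) V) K).comp MvPolynomial.C)
    ((IsFractionRing.injective (MvPolynomial (Fin (d + 1)) V) K).comp (MvPolynomial.C_injective _ _))
  have hjk : (algebraMap K L).comp jk =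
      ((algebraMap (MvPolynomial (Fin (N + 1)) k ⧸ P) L).comp (Ideal.Quotient.mk P)).comp C := by
    apply IsLocalization.ringHom_ext (nonZeroDivisors V)
    ext v
    have h1 : jk (algebraMap V k v) = algebraMap (MvPolynomial (Fin (d + 1)) V) K (C v) :=
      IsFractionRing.lift_algebraMap _ v
    simp only [RingHom.comp_apply, h1]
    rw [← IsScalarTower.algebraMap_apply (MvPolynomial (Fin (d + 1)) V) K L,
      IsScalarTower.algebraMap_apply (MvPolynomial (Fin (d + 1)) V)
        (MvPolynomial (Fin (N + 1)) k ⧸ P) L, hal]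
    congr 1
    simp [zmap, vmap]
  let j : MvPolynomial (Fin (d + 1)) k →+* K :=
    MvPolynomial.eval₂Hom jk fun i => algebraMap (MvPolynomial (Fin (d + 1)) V) K (X i)
  have hj : (algebraMap K L).comp j = (algebraMap (MvPolynomial (Fin (N + 1)) k ⧸ P) L).comp
      (kmap P fun i => MvPolynomial.map V.subtype (z i)) := by
    apply MvPolynomial.ringHom_ext
    · intro c
      have h2 := congrArg (fun f : k →+* L => f c) hjk
      simpa [j, kmap] using h2
    · intro i
      simp only [RingHom.comp_apply, j, MvPolynomial.coe_eval₂Hom, MvPolynomial.eval₂_X]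
      rw [← IsScalarTower.algebraMap_apply (MvPolynomial (Fin (d + 1)) V) K L,
        IsScalarTower.algebraMap_apply (MvPolynomial (Fin (d + 1)) V)
        (MvPolynomial (Fin (N + 1)) k ⧸ P) L, hal]
      congr 1
      simp [zmap, vmap, kmap]
  let x : Fin (N + 1) → L := fun i =>
    algebraMap (MvPolynomial (Fin (N + 1)) k ⧸ P) L (Ideal.Quotient.mk P (X i))
  have hx : ∀ y ∈ Set.range x, ∃ f : Polynomial K, Polynomial.aeval y f = 0 ∧
      Polynomial.aeval y (Polynomial.derivative f) ≠ 0 := by
    rintro _ ⟨i, rfl⟩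
    obtain ⟨f, hf, hf'⟩ := hsep i
    have key : ∀ g : Polynomial (MvPolynomial (Fin (d + 1)) k),
        Polynomial.aeval (x i) (g.map j) = algebraMap (MvPolynomial (Fin (N + 1)) k ⧸ P) L (g.eval₂
          (kmap P fun i => MvPolynomial.map V.subtype (z i)) (Ideal.Quotient.mk P (X i))) := by
      intro g
      rw [Polynomial.aeval_def, Polynomial.eval₂_map, hj, Polynomial.hom_eval₂]
    refine ⟨f.map j, ?_, ?_⟩
    · rw [key, hf, map_zero]
    · rw [Polynomial.derivative_map, key]
      intro h
      exact hf' ((IsFractionRing.injective (MvPolynomial (Fin (N + 1)) k ⧸ P) L)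
        (h.trans (map_zero _).symm))
  have htop : IntermediateField.adjoin K (Set.range x) = ⊤ := by
    rw [eq_top_iff]
    intro l _
    have h3 : ∀ b : MvPolynomial (Fin (N + 1)) k ⧸ P,
        algebraMap (MvPolynomial (Fin (N + 1)) k ⧸ P) L b ∈
          IntermediateField.adjoin K (Set.range x) := by
      intro b
      obtain ⟨F, rfl⟩ := Ideal.Quotient.mk_surjective b
      induction F using MvPolynomial.induction_on with
      | C c =>
        have h4 := congrArg (fun f : k →+* L => f c) hjk
        simp only [RingHom.comp_apply] at h4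
        rw [← h4]
        exact IntermediateField.algebraMap_mem _ _
      | add p q hp hq =>
        rw [map_add, map_add]
        exact add_mem hp hq
      | mul_X p i hp =>
        rw [map_mul, map_mul]
        exact mul_mem hp (IntermediateField.subset_adjoin _ _ ⟨i, rfl⟩)
    obtain ⟨a, b, -, hab⟩ := IsFractionRing.div_surjective
      (A := MvPolynomial (Fin (N + 1)) k ⧸ P) l
    rw [← hab]
    exact div_mem (h3 a) (h3 b)
  obtain ⟨hfd, hse⟩ := FINA_.finsep (Set.range x) hx htop
  have := hfd
  have := hse
  exact IsIntegralClosure.isNoetherian (MvPolynomial (Fin (d + 1)) V) K L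
    (integralClosure (MvPolynomial (Fin (d + 1)) V) L)

end Pool.Agent.NRM
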