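import Pool.Agent.NRM.Norm
import Pool.Agent.NRM.Fin

/-!
# The field of fractions of the normalisation
-/

set_option autoImplicit false
set_option linter.style.haveILetI false

noncomputable section

namespace Pool.Agent.NRM

open scoped Classical
open MvPolynomial Pool.Agent.LibDb3ab1 Pool.Agent.DC Pool.Agent.FRM

section frac

variable {N : ℕ} {K : Type} [Field K] {F₀ : Type} [Field F₀] [Algebra K F₀] (ξ : Fin (N + 1) → F₀)

/-- The embedding in the field of fractions. -/
def io : Polynomial F₀ →ₐ[K] FractionRing (Polynomial F₀) :=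
  IsScalarTower.toAlgHom K (Polynomial F₀) (FractionRing (Polynomial F₀))

theorem io_inj : Function.Injective (io (K := K) (F₀ := F₀)) :=
  IsFractionRing.injective (Polynomial F₀) (FractionRing (Polynomial F₀))

/-- The field of quotients. -/
def SS : IntermediateField K (FractionRing (Polynomial F₀)) where
  carrier := {x | ∃ a b : MvPolynomial (Fin (N + 1)) K, ph ξ b ≠ 0 ∧
    x * io (K := K) (ph ξ b) = io (K := K) (ph ξ a)}
  mul_mem' := by
    rintro x x' ⟨a, b, hb, h⟩ ⟨a', b', hb', h'⟩
    refine ⟨a * a', b * b', ?_, ?_⟩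
    · rw [map_mul]
      exact mul_ne_zero hb hb'
    · simp only [map_mul]
      rw [← h, ← h']
      ring
  add_mem' := by
    rintro x x' ⟨a, b, hb, h⟩ ⟨a', b', hb', h'⟩
    refine ⟨a * b' + a' * b, b * b', ?_, ?_⟩
    · rw [map_mul]
      exact mul_ne_zero hb hb'
    · simp only [map_mul, map_add]
      rw [← h, ← h']
      ring
  algebraMap_mem' := by
    intro c
    refine ⟨C c, 1, ?_, ?_⟩
    · rw [map_one]
      exact one_ne_zero
    · rw [map_one, map_one, mul_one, ← MvPolynomial.algebraMap_eq, AlgHom.commutes,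
        AlgHom.commutes]
  inv_mem' := by
    rintro x ⟨a, b, hb, h⟩
    by_cases hx : x = 0
    · refine ⟨0, 1, ?_, ?_⟩
      · rw [map_one]
        exact one_ne_zero
      · rw [hx, inv_zero, zero_mul, map_zero, map_zero]
    · refine ⟨b, a, ?_, ?_⟩
      · intro h0
        rw [h0, map_zero] at h
        have h1 : io (K := K) (ph ξ b) ≠ 0 := by
          intro h2
          exact hb (io_inj (h2.trans (map_zero _).symm))
        exact mul_ne_zero hx h1 h
      · rw [← h, inv_mul_cancel_left₀ hx]

theorem SS_top {i₀ : Fin (N + 1)} (h1 : ξ i₀ = 1)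
    (gen : IntermediateField.adjoin K (Set.range ξ) = ⊤) : SS (K := K) ξ = ⊤ := by
  have hX : ph (K := K) ξ (X i₀) = Polynomial.X := by
    rw [ph_X, h1, Polynomial.C_1, one_mul]
  have hT : io (K := K) (Polynomial.X : Polynomial F₀) ∈ SS (K := K) ξ :=
    ⟨X i₀, 1, by rw [map_one]; exact one_ne_zero, by rw [hX, map_one, map_one, mul_one]⟩
  have hC : ∀ f : F₀, io (K := K) (Polynomial.C f) ∈ SS (K := K) ξ := by
    intro f
    have h2 : (⊤ : IntermediateField K F₀) ≤ (SS (K := K) ξ).comap
        ((io (K := K)).comp ((Polynomial.CAlgHom (R := F₀) (A := F₀)).restrictScalars K)) := by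
      rw [← gen, IntermediateField.adjoin_le_iff]
      rintro _ ⟨i, rfl⟩
      refine ⟨X i, X i₀, ?_, ?_⟩
      · rw [hX]
        exact Polynomial.X_ne_zero
      · rw [hX, ph_X, map_mul]
        rfl
    exact h2 (IntermediateField.mem_top (x := f))
  have hP : ∀ q : Polynomial F₀, io (K := K) q ∈ SS (K := K) ξ := by
    intro q
    induction q using Polynomial.induction_on' with
    | add p q hp hq =>
      rw [map_add]
      exact add_mem hp hq
    | monomial n f =>
      rw [← Polynomial.C_mul_X_pow_eq_monomial, map_mul, map_pow]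
      exact mul_mem (hC f) (pow_mem hT n)
  rw [eq_top_iff]
  intro x _
  obtain ⟨a, b, -, rfl⟩ := IsFractionRing.div_surjective (A := Polynomial F₀) x
  exact div_mem (hP a) (hP b)

theorem frac {i₀ : Fin (N + 1)} (h1 : ξ i₀ = 1)
    (gen : IntermediateField.adjoin K (Set.range ξ) = ⊤) (x : FractionRing (Polynomial F₀)) :
    ∃ a b : MvPolynomial (Fin (N + 1)) K, ph ξ b ≠ 0 ∧
      x * io (K := K) (ph ξ b) = io (K := K) (ph ξ a) := by
  have h2 : x ∈ SS (K := K) ξ := by
    rw [SS_top ξ h1 gen]
    trivial
  exact h2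

end frac

end Pool.Agent.NRM
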