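import Pool.Agent.FRM.FINA
import Pool.Agent.TFR.DEH

/-!
# The normalisation of the homogeneous coordinate ring
-/

set_option autoImplicit false
set_option linter.style.haveILetI false

noncomputable section

namespace Pool.Agent.NRM

open scoped Classical
open MvPolynomial Pool.Agent.LibDb3ab1 Pool.Agent.DC Pool.Agent.FRM

section ring

variable {N : ℕ} {K : Type} [Field K] {F₀ : Type} [Field F₀] [Algebra K F₀] (ξ : Fin (N + 1) → F₀)

/-- The homomorphism `X i ↦ ξ i T`. -/
def ph : MvPolynomial (Fin (N + 1)) K →ₐ[K] Polynomial F₀ :=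
  aeval fun i => Polynomial.C (ξ i) * Polynomial.X

theorem ph_X (i : Fin (N + 1)) : ph (K := K) ξ (X i) = Polynomial.C (ξ i) * Polynomial.X := by
  rw [ph, aeval_X]

theorem ph_hom {G : MvPolynomial (Fin (N + 1)) K} {n : ℕ} (h : G.IsHomogeneous n) :
    ph ξ G = Polynomial.monomial n (aeval ξ G) := by
  rw [ph, aeval_def, aeval_def, eval₂_eq, eval₂_eq, map_sum]
  refine Finset.sum_congr rfl fun d hd => ?_
  have h1 := h (mem_support_iff.1 hd)
  have h2 : ∑ i ∈ d.support, d i = n := by
    rw [← h1, Finsupp.weight_apply, Finsupp.sum]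
    simp
  simp only [mul_pow]
  rw [Finset.prod_mul_distrib, Finset.prod_pow_eq_pow_sum, h2,
    ← Polynomial.C_mul_X_pow_eq_monomial, map_mul, map_prod, Polynomial.algebraMap_apply, ← mul_assoc]
  simp only [map_pow]

theorem coeff_ph (G : MvPolynomial (Fin (N + 1)) K) (n : ℕ) :
    (ph ξ G).coeff n = aeval ξ (homogeneousComponent n G) := by
  conv_lhs => rw [← sum_homogeneousComponent G, map_sum]
  rw [Polynomial.finsetSum_coeff]
  have h1 : ∀ i, (ph ξ (homogeneousComponent i G)).coeff n =
      if i = n then aeval ξ (homogeneousComponent n G) else 0 := by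
    intro i
    rw [ph_hom ξ (homogeneousComponent_isHomogeneous i G), Polynomial.coeff_monomial]
    split_ifs with h
    · rw [h]
    · rfl
  rw [Finset.sum_congr rfl fun i _ => h1 i, Finset.sum_ite_eq']
  split_ifs with h
  · rfl
  · rw [homogeneousComponent_eq_zero, map_zero]
    rw [Finset.mem_range] at h
    omega

variable {P : Ideal (MvPolynomial (Fin (N + 1)) K)}

theorem ker_ph (hH : Homog P)
    (mem : ∀ (G : MvPolynomial (Fin (N + 1)) K) (m : ℕ), G.IsHomogeneous m →
      (G ∈ P ↔ aeval ξ G = 0)) : RingHom.ker (ph (K := K) ξ) = P := by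
  ext G
  rw [RingHom.mem_ker]
  constructor
  · intro h
    rw [← sum_homogeneousComponent G]
    refine Ideal.sum_mem _ fun n _ => ?_
    rw [mem _ n (homogeneousComponent_isHomogeneous n G), ← coeff_ph, h, Polynomial.coeff_zero]
  · intro h
    ext n
    rw [coeff_ph, Polynomial.coeff_zero, ← mem _ n (homogeneousComponent_isHomogeneous n G)]
    exact hH G h n

/-- The normalisation. -/
def NB : Subalgebra K (Polynomial F₀) :=
  (integralClosure (ph (K := K) ξ).range (Polynomial F₀)).restrictScalars K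

theorem mem_NB {b : Polynomial F₀} :
    b ∈ NB (K := K) ξ ↔ IsIntegral (ph (K := K) ξ).range b := Iff.rfl

theorem ph_mem (G : MvPolynomial (Fin (N + 1)) K) : ph ξ G ∈ NB (K := K) ξ := by
  rw [mem_NB]
  exact isIntegral_algebraMap (x := (⟨ph ξ G, G, rfl⟩ : (ph (K := K) ξ).range))

/-- The homomorphism to the normalisation. -/
def φ : MvPolynomial (Fin (N + 1)) K →ₐ[K] NB (K := K) ξ :=
  (ph (K := K) ξ).codRestrict (NB (K := K) ξ) (ph_mem ξ)

theorem coe_φ (G : MvPolynomial (Fin (N + 1)) K) : ((φ ξ G : NB (K := K) ξ) : Polynomial F₀) =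
    ph ξ G := rfl

attribute [local instance] Polynomial.algebra in
/-- Homogeneity of the integral closure. -/
theorem monomial_mem {b : Polynomial F₀} (hb : b ∈ NB (K := K) ξ) (n : ℕ) :
    Polynomial.monomial n (b.coeff n) ∈ NB (K := K) ξ := by
  rw [mem_NB] at hb ⊢
  let A := (ph (K := K) ξ).range
  -- `T ↦ T U`
  let ψ : Polynomial F₀ →+* Polynomial (Polynomial F₀) :=
    Polynomial.eval₂RingHom (Polynomial.C.comp Polynomial.C)
      (Polynomial.C Polynomial.X * Polynomial.X)
  have hψm : ∀ (n : ℕ) (f : F₀), ψ (Polynomial.monomial n f) =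
      Polynomial.monomial n (Polynomial.monomial n f) := by
    intro n f
    simp only [ψ, Polynomial.coe_eval₂RingHom, Polynomial.eval₂_monomial, RingHom.comp_apply,
      mul_pow]
    rw [← Polynomial.C_mul_X_pow_eq_monomial (n := n) (a := Polynomial.monomial n f),
      ← Polynomial.C_mul_X_pow_eq_monomial (n := n) (a := f), map_mul, map_pow]
    ring
  have hψ : ∀ (b : Polynomial F₀) (n : ℕ), (ψ b).coeff n = Polynomial.monomial n (b.coeff n) := by
    intro b n
    induction b using Polynomial.induction_on' with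
    | add p q hp hq => rw [map_add, Polynomial.coeff_add, hp, hq, Polynomial.coeff_add, map_add]
    | monomial m f =>
      rw [hψm, Polynomial.coeff_monomial, Polynomial.coeff_monomial]
      split_ifs with h
      · rw [h]
      · rw [map_zero]
  -- the map `A → A[U]`
  have h1 : ∀ a : A, ∃ a' : Polynomial A, a'.map (algebraMap A (Polynomial F₀)) = ψ a := by
    rintro ⟨_, G, rfl⟩
    have h2 : ψ (ph ξ G) ∈ Polynomial.lifts (algebraMap A (Polynomial F₀)) := by
      rw [Polynomial.lifts_iff_coeff_lifts]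
      intro m
      rw [hψ, coeff_ph, ← ph_hom ξ (homogeneousComponent_isHomogeneous m G)]
      exact ⟨⟨ph ξ (homogeneousComponent m G), _, rfl⟩, rfl⟩
    obtain ⟨a', ha'⟩ := (Polynomial.mem_lifts _).1 h2
    exact ⟨a', ha'⟩
  have h2 : IsIntegral (Polynomial A) (ψ b) := by
    obtain ⟨f, hf, hf0⟩ := hb
    have h3 : (f.map (ψ.comp (algebraMap A (Polynomial F₀)))).eval (ψ b) = 0 := by
      rw [Polynomial.eval_map, ← Polynomial.hom_eval₂, hf0, map_zero]
    have h4 : f.map (ψ.comp (algebraMap A (Polynomial F₀))) ∈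
        Polynomial.lifts (algebraMap (Polynomial A) (Polynomial (Polynomial F₀))) := by
      rw [Polynomial.lifts_iff_coeff_lifts]
      intro m
      rw [Polynomial.coeff_map]
      obtain ⟨a', ha'⟩ := h1 (f.coeff m)
      exact ⟨a', ha'⟩
    obtain ⟨g, hg1, -, hg2⟩ := Polynomial.lifts_and_natDegree_eq_and_monic h4 (hf.map _)
    refine ⟨g, hg2, ?_⟩
    rw [← Polynomial.eval_map, hg1]
    exact h3
  have h3 := (Polynomial.isIntegral_iff_isIntegral_coeff.1 h2) n
  rwa [hψ] at h3

/-- The grading. -/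
def grd (n : ℕ) : Submodule K (NB (K := K) ξ) :=
  (LinearMap.range ((Polynomial.monomial n : F₀ →ₗ[F₀] Polynomial F₀).restrictScalars K)).comap
    (NB (K := K) ξ).val.toLinearMap

theorem mem_grd {n : ℕ} {b : NB (K := K) ξ} :
    b ∈ grd (K := K) ξ n ↔ ∃ f : F₀, Polynomial.monomial n f = (b : Polynomial F₀) := by
  rfl

theorem mem_grd' {n : ℕ} {b : NB (K := K) ξ} (h : b ∈ grd (K := K) ξ n) :
    Polynomial.monomial n ((b : Polynomial F₀).coeff n) = (b : Polynomial F₀) := by
  obtain ⟨f, hf⟩ := (mem_grd ξ).1 h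
  rw [← hf, Polynomial.coeff_monomial_same]

instance gm : SetLike.GradedMonoid (grd (K := K) ξ) where
  one_mem := by
    rw [mem_grd]
    exact ⟨1, rfl⟩
  mul_mem := by
    intro i j a b ha hb
    rw [mem_grd] at *
    obtain ⟨f, hf⟩ := ha
    obtain ⟨g, hg⟩ := hb
    refine ⟨f * g, ?_⟩
    rw [← Polynomial.monomial_mul_monomial, hf, hg]
    rfl

theorem coeff_coe (x : DirectSum ℕ fun i => grd (K := K) ξ i) (m : ℕ) :
    (((DirectSum.coeAddMonoidHom (grd (K := K) ξ) x : NB (K := K) ξ) : Polynomial F₀)).coeff m =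
      (((x m : grd (K := K) ξ m) : NB (K := K) ξ) : Polynomial F₀).coeff m := by
  induction x using DirectSum.induction_on with
  | zero =>
    rw [map_zero]
    rfl
  | of i y =>
    rw [DirectSum.coeAddMonoidHom_of]
    by_cases h : i = m
    · subst h
      rw [DirectSum.of_eq_same]
    · rw [DirectSum.of_eq_of_ne _ _ _ (Ne.symm h), ← mem_grd' ξ y.2, Polynomial.coeff_monomial,
        if_neg h]
      rfl
  | add x y hx hy =>
    rw [map_add, DirectSum.add_apply]
    have h1 : ∀ a b : NB (K := K) ξ, ((a + b : NB (K := K) ξ) : Polynomial F₀).coeff m =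
        (a : Polynomial F₀).coeff m + (b : Polynomial F₀).coeff m := fun a b => by
      rw [← Polynomial.coeff_add]
      rfl
    rw [h1, hx, hy, Submodule.coe_add, h1]

theorem internal : DirectSum.IsInternal (grd (K := K) ξ) := by
  constructor
  · intro x y hxy
    apply DFinsupp.ext
    intro m
    apply Subtype.ext
    apply Subtype.ext
    rw [← mem_grd' ξ (x m).2, ← mem_grd' ξ (y m).2]
    congr 1
    have h1 := coeff_coe ξ x m
    have h2 := coeff_coe ξ y m
    exact h1.symm.trans ((congrArg (fun b : NB (K := K) ξ => (b : Polynomial F₀).coeff m)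
      hxy).trans h2)
  · intro y
    refine ⟨∑ m ∈ (y : Polynomial F₀).support, DirectSum.of (fun m => grd (K := K) ξ m) m
      ⟨⟨Polynomial.monomial m ((y : Polynomial F₀).coeff m), monomial_mem ξ y.2 m⟩,
        ⟨_, rfl⟩⟩, ?_⟩
    rw [map_sum]
    simp only [DirectSum.coeAddMonoidHom_of]
    apply Subtype.ext
    have h1 := map_sum (NB (K := K) ξ).val (fun m =>
      (⟨Polynomial.monomial m ((y : Polynomial F₀).coeff m), monomial_mem ξ y.2 m⟩ :
        NB (K := K) ξ)) (y : Polynomial F₀).support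
    refine h1.trans ?_
    conv_rhs => rw [(y : Polynomial F₀).as_sum_support]
    rfl

/-- The normalisation is graded. -/
instance ga : GradedAlgebra (grd (K := K) ξ) :=
  { gm (K := K) ξ, (internal (K := K) ξ).chooseDecomposition with }

theorem φ_mem (i : Fin (N + 1)) : φ (K := K) ξ (X i) ∈ grd (K := K) ξ 1 := by
  rw [mem_grd]
  exact ⟨ξ i, by rw [coe_φ, ph_X, Polynomial.C_mul_X_eq_monomial]⟩

theorem NB_int (b : NB (K := K) ξ) :
    (φ (K := K) ξ : MvPolynomial (Fin (N + 1)) K →+* NB (K := K) ξ).IsIntegralElem b := by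
  obtain ⟨f, hf, hf0⟩ := (mem_NB ξ).1 b.2
  have h1 : f ∈ Polynomial.lifts
      (((ph (K := K) ξ).rangeRestrict : MvPolynomial (Fin (N + 1)) K →+* (ph (K := K) ξ).range)) := by
    rw [Polynomial.lifts_iff_coeff_lifts]
    intro m
    exact (ph (K := K) ξ).rangeRestrict_surjective _
  obtain ⟨g, hg1, -, hg2⟩ := Polynomial.lifts_and_natDegree_eq_and_monic h1 hf
  refine ⟨g, hg2, ?_⟩
  apply Subtype.ext
  have h2 : (NB (K := K) ξ).val.toRingHom (g.eval₂
      (φ (K := K) ξ : MvPolynomial (Fin (N + 1)) K →+* NB (K := K) ξ) b) =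
      g.eval₂ ((NB (K := K) ξ).val.toRingHom.comp
        (φ (K := K) ξ : MvPolynomial (Fin (N + 1)) K →+* NB (K := K) ξ)) (b : Polynomial F₀) :=
    Polynomial.hom_eval₂ _ _ _ _
  refine h2.trans ?_
  rw [← hg1, Polynomial.eval₂_map] at hf0
  exact hf0

theorem mem_of_int (b : Polynomial F₀) (h : IsIntegral (NB (K := K) ξ) b) :
    b ∈ NB (K := K) ξ := by
  have h1 : IsIntegral (integralClosure (ph (K := K) ξ).range (Polynomial F₀)) b := h
  exact (mem_NB ξ).2 (isIntegral_trans b h1)

end ring

end Pool.Agent.NRM
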